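import Mathlib

/-! Restricted Eulerian polynomials and the linear functional that turns the h-polynomial of a
boolean complex into the h-polynomial of its barycentric subdivision. -/

namespace Pool.Agent.H53.BS

open Polynomial Finset

/-- restricted Eulerian polynomials: `P d j` counts by descents the permutations of `d+1` letters
whose first letter is `j+1`. -/
noncomputable def P : ℕ → ℕ → ℤ[X]
  | 0, _ => 1
  | d + 1, j => X * ∑ k ∈ range j, P d k + ∑ k ∈ Ico j (d + 1), P d k

theorem P_zero (j : ℕ) : P 0 j = 1 := rfl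

theorem P_succ (d j : ℕ) :
    P (d + 1) j = X * ∑ k ∈ range j, P d k + ∑ k ∈ Ico j (d + 1), P d k := rfl

theorem P_diff (d j : ℕ) (h : j ≤ d) : P (d + 1) j - P (d + 1) (j + 1) = (1 - X) * P d j := by
  rw [P_succ, P_succ, Finset.sum_range_succ, Finset.sum_eq_sum_Ico_succ_bot (by omega : j < d + 1)]
  ring

/-- the functional -/
noncomputable def L (d : ℕ) (g : ℤ[X]) : ℤ[X] := ∑ j ∈ range (d + 1), C (g.coeff j) * P d j

theorem L_add (d : ℕ) (f g : ℤ[X]) : L d (f + g) = L d f + L d g := by
  simp only [L, coeff_add, C_add, add_mul, Finset.sum_add_distrib]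

theorem L_sub (d : ℕ) (f g : ℤ[X]) : L d (f - g) = L d f - L d g := by
  simp only [L, coeff_sub, C_sub, sub_mul, Finset.sum_sub_distrib]

theorem L_zero (d : ℕ) : L d 0 = 0 := by simp [L]

theorem L_sum (d : ℕ) {ι : Type*} (s : Finset ι) (f : ι → ℤ[X]) :
    L d (∑ i ∈ s, f i) = ∑ i ∈ s, L d (f i) := by
  classical
  induction s using Finset.induction with
  | empty => simp [L_zero]
  | insert a s ha ih => rw [Finset.sum_insert ha, Finset.sum_insert ha, L_add, ih]

theorem L_C_mul (d : ℕ) (a : ℤ) (f : ℤ[X]) : L d (C a * f) = C a * L d f := by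
  simp only [L, coeff_C_mul, C_mul, mul_assoc, Finset.mul_sum]

theorem L_X_pow (d m : ℕ) (h : m ≤ d) : L d (X ^ m) = P d m := by
  unfold L
  rw [Finset.sum_eq_single m]
  · simp
  · intro j _ hj
    rw [coeff_X_pow, if_neg hj]
    simp
  · intro hm
    exact absurd (mem_range.2 (by omega)) hm

theorem L_key (d N m : ℕ) (h : m + N ≤ d) :
    L d (X ^ m * (1 - X) ^ N) = (1 - X) ^ N * P (d - N) m := by
  induction N generalizing m with
  | zero => simp [L_X_pow d m (by omega)]
  | succ N ih =>
    have e : (X : ℤ[X]) ^ m * (1 - X) ^ (N + 1)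
        = X ^ m * (1 - X) ^ N - X ^ (m + 1) * (1 - X) ^ N := by ring
    obtain ⟨D, hD⟩ : ∃ D, d - N = D + 1 := ⟨d - N - 1, by omega⟩
    have hD' : d - (N + 1) = D := by omega
    rw [e, L_sub, ih m (by omega), ih (m + 1) (by omega), ← mul_sub, hD, hD',
      P_diff D m (by omega)]
    ring

theorem P_bin (d : ℕ) : P d 0 = ∑ k ∈ range (d + 1), (d.choose k : ℤ[X]) * ((1 - X) ^ (d - k) * P k k) := by
  have e : (1 : ℤ[X]) = ∑ k ∈ range (d + 1), C ((d.choose k : ℕ) : ℤ) * (X ^ k * (1 - X) ^ (d - k)) := by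
    have h := add_pow (X : ℤ[X]) (1 - X) d
    have h1 : (X : ℤ[X]) + (1 - X) = 1 := by ring
    rw [h1, one_pow] at h
    refine h.trans (Finset.sum_congr rfl fun k _ => ?_)
    simp only [Int.cast_natCast, map_natCast]
    ring
  have h1 : L d 1 = P d 0 := by
    have := L_X_pow d 0 (by omega)
    rwa [pow_zero] at this
  have h2 := congrArg (L d) e
  rw [h1, L_sum] at h2
  refine h2.trans (Finset.sum_congr rfl fun k hk => ?_)
  have hk' : k ≤ d := by have := mem_range.1 hk; omega
  rw [L_C_mul, L_key d (d - k) k (by omega)]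
  have : d - (d - k) = k := by omega
  rw [this]
  simp only [Int.cast_natCast, map_natCast]

theorem P_diag (d : ℕ) : P (d + 1) (d + 1) = X * P (d + 1) 0 := by
  rw [P_succ, P_succ]
  simp

theorem one_sub_X_ne : (1 - X : ℤ[X]) ≠ 0 := by
  intro h
  have := congrArg (fun p => Polynomial.eval 0 p) h
  simp at this

/-- the diagonal satisfies the recurrence of the ordered-set-partition polynomials -/
theorem P_diag_rec (m : ℕ) :
    P (m + 1) (m + 1) = X * ∑ k ∈ range (m + 1),
      ((m + 1).choose k : ℤ[X]) * ((1 - X) ^ (m - k) * P k k) := by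
  rw [P_diag]
  congr 1
  have h := P_bin (m + 1)
  rw [Finset.sum_range_succ, P_diag] at h
  simp only [Nat.choose_self, Nat.cast_one, one_mul, Nat.sub_self, pow_zero] at h
  have h2 : (1 - X) * P (m + 1) 0 = (1 - X) * ∑ k ∈ range (m + 1),
      ((m + 1).choose k : ℤ[X]) * ((1 - X) ^ (m - k) * P k k) := by
    have : (1 - X) * P (m + 1) 0 = P (m + 1) 0 - X * P (m + 1) 0 := by ring
    rw [this]
    nth_rw 1 [h]
    rw [add_sub_cancel_right, Finset.mul_sum]
    refine Finset.sum_congr rfl fun k hk => ?_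
    have hk' : k ≤ m := by have := mem_range.1 hk; omega
    have : m + 1 - k = (m - k) + 1 := by omega
    rw [this, pow_succ]
    ring
  exact mul_left_cancel₀ one_sub_X_ne h2

end Pool.Agent.H53.BS
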