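import Mathlib

/-! Clique polynomials, cones over induced subcomplexes. -/

namespace Pool.Agent.H53.BS

open Polynomial Finset

universe u v

open Classical in
/-- clique polynomial of the subgraph of `G` induced on `S` -/
noncomputable def cp {V : Type u} (G : SimpleGraph V) (S : Finset V) : ℤ[X] :=
  ∑ T ∈ S.powerset, if G.IsClique (T : Set V) then X ^ T.card else 0

theorem cp_empty {V : Type u} (G : SimpleGraph V) : cp G ∅ = 1 := by
  simp [cp]

theorem cp_insert {V : Type u} [DecidableEq V] (G : SimpleGraph V) (S : Finset V) (v : V)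
    [DecidablePred (G.Adj v)] (hv : v ∉ S) :
    cp G (insert v S) = cp G S + X * cp G (S.filter (G.Adj v)) := by
  classical
  unfold cp
  rw [Finset.sum_powerset_insert hv]
  congr 1
  rw [Finset.mul_sum]
  have hsub : (S.filter (G.Adj v)).powerset ⊆ S.powerset :=
    Finset.powerset_mono.2 (Finset.filter_subset _ _)
  symm
  refine Eq.trans ?_ (Finset.sum_subset hsub ?_)
  · refine Finset.sum_congr rfl fun t ht => ?_
    rw [Finset.mem_powerset] at ht
    have hvt : v ∉ t := fun h => hv (Finset.filter_subset _ _ (ht h))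
    have h1 : G.IsClique (↑(insert v t) : Set V) ↔ G.IsClique (t : Set V) := by
      rw [Finset.coe_insert, SimpleGraph.isClique_insert]
      refine ⟨fun h => h.1, fun h => ⟨h, fun b hb _ => ?_⟩⟩
      exact (Finset.mem_filter.1 (ht hb)).2
    by_cases hc : G.IsClique (t : Set V)
    · rw [if_pos hc, if_pos (h1.2 hc), Finset.card_insert_of_notMem hvt, pow_succ]
      ring
    · rw [if_neg hc, if_neg (fun h => hc (h1.1 h)), mul_zero]
  · intro t ht ht'
    rw [if_neg]
    intro hc
    apply ht'
    rw [Finset.mem_powerset] at ht ⊢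
    intro u hu
    rw [Finset.mem_filter]
    refine ⟨ht hu, ?_⟩
    rw [Finset.coe_insert, SimpleGraph.isClique_insert] at hc
    exact hc.2 u hu (fun h => hv (h ▸ ht hu))

theorem cp_map {V : Type u} {W : Type v} (G : SimpleGraph V) (H : SimpleGraph W) (f : V ↪ W)
    (hf : ∀ a b, H.Adj (f a) (f b) ↔ G.Adj a b) (S : Finset V) :
    cp H (S.map f) = cp G S := by
  classical
  induction hn : S.card using Nat.strong_induction_on generalizing S with
  | _ n ih =>
    rcases S.eq_empty_or_nonempty with rfl | ⟨v, hv⟩
    · simp [cp_empty]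
    · have hS : S = insert v (S.erase v) := (Finset.insert_erase hv).symm
      have hvn : v ∉ S.erase v := Finset.notMem_erase v S
      have hc : (S.erase v).card < n := by
        rw [← hn]
        exact Finset.card_erase_lt_of_mem hv
      have hmap : S.map f = insert (f v) ((S.erase v).map f) := by
        rw [← Finset.map_insert, ← hS]
      have hvn' : f v ∉ (S.erase v).map f := by
        rw [Finset.mem_map' f]
        exact hvn
      have hfil : ((S.erase v).map f).filter (H.Adj (f v))
          = ((S.erase v).filter (G.Adj v)).map f := by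
        ext w
        simp only [Finset.mem_filter, Finset.mem_map]
        constructor
        · rintro ⟨⟨a, ha, rfl⟩, h2⟩
          exact ⟨a, ⟨ha, (hf v a).1 h2⟩, rfl⟩
        · rintro ⟨a, ⟨ha, h2⟩, rfl⟩
          exact ⟨⟨a, ha, rfl⟩, (hf v a).2 h2⟩
      rw [hmap, cp_insert H _ _ hvn', hfil, ih _ hc _ rfl,
        ih _ (lt_of_le_of_lt (Finset.card_filter_le _ _) hc) _ rfl]
      conv_rhs => rw [hS, cp_insert G _ _ hvn]

/-- add to `G` pairwise non-adjacent vertices `i : I`, with neighbourhoods `s i` -/
def coneG {V : Type u} {I : Type v} (G : SimpleGraph V) (s : I → Finset V) :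
    SimpleGraph (V ⊕ I) where
  Adj a b :=
    match a, b with
    | .inl u, .inl v => G.Adj u v
    | .inl u, .inr i => u ∈ s i
    | .inr i, .inl u => u ∈ s i
    | .inr _, .inr _ => False
  symm := ⟨by
    rintro (a | a) (b | b) h
    · exact SimpleGraph.Adj.symm h
    · exact h
    · exact h
    · exact h⟩
  loopless := ⟨by
    rintro (a | a) h
    · exact G.loopless.irrefl a h
    · exact h⟩

open Classical in
theorem cp_cone {V : Type u} {I : Type v} (G : SimpleGraph V) (s : I → Finset V) (S : Finset V)
    (J : Finset I) :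
    cp (coneG G s) (S.disjSum J) = cp G S + X * ∑ i ∈ J, cp G (S ∩ s i) := by
  have hl : ∀ T : Finset V, cp (coneG G s) (T.map Function.Embedding.inl) = cp G T := by
    intro T
    exact cp_map G (coneG G s) Function.Embedding.inl (fun a b => Iff.rfl) T
  induction J using Finset.induction with
  | empty =>
    rw [Finset.disjSum_empty, hl]
    simp
  | insert i J hi ih =>
    have e : S.disjSum (insert i J) = insert (Sum.inr i) (S.disjSum J) := by
      ext x
      rcases x with x | x <;> simp
    have hn : (Sum.inr i : V ⊕ I) ∉ S.disjSum J := by simpa using hi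
    have hf : (S.disjSum J).filter ((coneG G s).Adj (Sum.inr i))
        = (S ∩ s i).map Function.Embedding.inl := by
      ext x
      rcases x with x | x
      · simp [coneG]
      · simp [coneG]
    rw [e, cp_insert _ _ _ hn, ih, hf, hl, Finset.sum_insert hi]
    ring

/-- `q` is a finite sum of clique polynomials of induced subgraphs of `G`. -/
def Ind {V : Type} (G : SimpleGraph V) (q : ℤ[X]) : Prop :=
  ∃ (I : Type) (_ : Fintype I) (s : I → Finset V), q = ∑ i, cp G (s i)

theorem Ind.zero {V : Type} (G : SimpleGraph V) : Ind G 0 :=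
  ⟨Empty, inferInstance, fun e => e.elim, by simp⟩

theorem Ind.single {V : Type} (G : SimpleGraph V) (S : Finset V) : Ind G (cp G S) :=
  ⟨Unit, inferInstance, fun _ => S, by simp⟩

theorem Ind.add {V : Type} {G : SimpleGraph V} {p q : ℤ[X]} (hp : Ind G p) (hq : Ind G q) :
    Ind G (p + q) := by
  obtain ⟨I, _, s, rfl⟩ := hp
  obtain ⟨J, _, t, rfl⟩ := hq
  exact ⟨I ⊕ J, inferInstance, Sum.elim s t, by simp⟩

theorem Ind.sum {V : Type} {G : SimpleGraph V} {ι : Type*} (A : Finset ι) (q : ι → ℤ[X])
    (h : ∀ i ∈ A, Ind G (q i)) : Ind G (∑ i ∈ A, q i) := by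
  classical
  induction A using Finset.induction with
  | empty => simpa using Ind.zero G
  | insert a A ha ih =>
    rw [Finset.sum_insert ha]
    exact (h a (Finset.mem_insert_self a A)).add
      (ih fun i hi => h i (Finset.mem_insert_of_mem hi))

theorem Ind.nsmul {V : Type} {G : SimpleGraph V} {q : ℤ[X]} (h : Ind G q) (n : ℕ) :
    Ind G ((n : ℤ[X]) * q) := by
  induction n with
  | zero => simpa using Ind.zero G
  | succ n ih =>
    have : ((n + 1 : ℕ) : ℤ[X]) * q = (n : ℤ[X]) * q + q := by push_cast; ring
    rw [this]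
    exact ih.add h

theorem Ind.cone {V : Type} {G : SimpleGraph V} {q : ℤ[X]} (h : Ind G q) {I : Type}
    (s : I → Finset V) : Ind (coneG G s) q := by
  obtain ⟨J, _, t, rfl⟩ := h
  refine ⟨J, inferInstance, fun j => (t j).map Function.Embedding.inl, ?_⟩
  refine Finset.sum_congr rfl fun j _ => ?_
  exact (cp_map G (coneG G s) Function.Embedding.inl (fun a b => Iff.rfl) (t j)).symm

/-- cone construction with a graded family of new vertices -/
theorem exists_cone {V : Type} [Fintype V] (G : SimpleGraph V) (n : ℕ) (q : ℕ → ℤ[X])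
    (hq : ∀ i < n, Ind G (q i)) :
    ∃ (W : Type) (_ : Fintype W) (H : SimpleGraph W),
      (∀ p, Ind G p → Ind H p) ∧
      cp H univ = cp G univ + X * ∑ i ∈ range n, q i ∧
      ∀ j, j ≤ n → Ind H (cp G univ + X * ∑ i ∈ Ico j n, q i) := by
  classical
  choose! I hI s hs using hq
  let J : Type := Σ i : Fin n, I i
  let _ : ∀ i : Fin n, Fintype (I i) := fun i => hI i i.2
  let t : J → Finset V := fun x => s x.1 x.2
  have key : ∀ j, cp (coneG G t) ((univ : Finset V).disjSum (univ.filter (fun x : J => j ≤ (x.1 : ℕ))))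
      = cp G univ + X * ∑ i ∈ Ico j n, q i := by
    intro j
    rw [cp_cone]
    congr 2
    have h1 : ∀ i ∈ (univ.filter (fun x : J => j ≤ (x.1 : ℕ))), cp G (univ ∩ t i) = cp G (t i) := by
      intro i _
      rw [Finset.univ_inter]
    rw [Finset.sum_congr rfl h1, Finset.sum_filter, Fintype.sum_sigma]
    have h2 : ∀ i : Fin n, (∑ y : I i, if j ≤ ((⟨i, y⟩ : J).1 : ℕ) then cp G (t ⟨i, y⟩) else 0)
        = if j ≤ (i : ℕ) then q i else 0 := by
      intro i
      by_cases h : j ≤ (i : ℕ)
      · simp only [h, if_true]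
        exact (hs i i.2).symm
      · simp only [h, if_false, Finset.sum_const_zero]
    rw [Finset.sum_congr rfl fun i _ => h2 i]
    rw [Fin.sum_univ_eq_sum_range (fun i => if j ≤ i then q i else 0) n, ← Finset.sum_filter]
    refine Finset.sum_congr ?_ fun _ _ => rfl
    ext x
    simp only [Finset.mem_filter, Finset.mem_range, Finset.mem_Ico]
    tauto
  refine ⟨V ⊕ J, inferInstance, coneG G t, fun p hp => hp.cone t, ?_, ?_⟩
  · have := key 0
    rw [Finset.range_eq_Ico, ← this]
    congr 1
    ext x
    rcases x with x | x <;> simp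
  · intro j _
    rw [← key j]
    exact Ind.single _ _

end Pool.Agent.H53.BS
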