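import Pool.Agent.H53.BS.Alg
import Pool.Agent.H53.BS.Flag

/-! The flag complexes whose f-polynomials are the gamma polynomials. -/

namespace Pool.Agent.H53.BS

open Polynomial Finset

/-- the polynomial with gamma polynomial `g` (centre `d/2`) -/
noncomputable def Gd (d : ℕ) (g : ℤ[X]) : ℤ[X] :=
  ∑ i ∈ range (d / 2 + 1), C (g.coeff i) * (X ^ i * (1 + X) ^ (d - 2 * i))

def IsG (d : ℕ) (f g : ℤ[X]) : Prop := (∀ i, d < 2 * i → g.coeff i = 0) ∧ f = Gd d g

theorem IsG.zero (d : ℕ) : IsG d 0 0 := ⟨by simp, by simp [Gd]⟩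

theorem IsG.add {d : ℕ} {f g f' g' : ℤ[X]} (h : IsG d f g) (h' : IsG d f' g') :
    IsG d (f + f') (g + g') := by
  refine ⟨fun i hi => by rw [coeff_add, h.1 i hi, h'.1 i hi, add_zero], ?_⟩
  rw [h.2, h'.2]
  simp only [Gd, coeff_add, C_add, add_mul, Finset.sum_add_distrib]

theorem IsG.smul {d : ℕ} {f g : ℤ[X]} (h : IsG d f g) (n : ℕ) :
    IsG d ((n : ℤ[X]) * f) ((n : ℤ[X]) * g) := by
  induction n with
  | zero => simpa using IsG.zero d
  | succ n ih =>
    have e : ∀ p : ℤ[X], ((n + 1 : ℕ) : ℤ[X]) * p = (n : ℤ[X]) * p + p := by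
      intro p; push_cast; ring
    rw [e, e]
    exact ih.add h

theorem IsG.sum {d : ℕ} {ι : Type*} (A : Finset ι) (f g : ι → ℤ[X])
    (h : ∀ i ∈ A, IsG d (f i) (g i)) : IsG d (∑ i ∈ A, f i) (∑ i ∈ A, g i) := by
  classical
  induction A using Finset.induction with
  | empty => simpa using IsG.zero d
  | insert a A ha ih =>
    rw [Finset.sum_insert ha, Finset.sum_insert ha]
    exact (h a (Finset.mem_insert_self a A)).add
      (ih fun i hi => h i (Finset.mem_insert_of_mem hi))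

theorem IsG.mul_one_add {d : ℕ} {f g : ℤ[X]} (h : IsG d f g) : IsG (d + 1) ((1 + X) * f) g := by
  refine ⟨fun i hi => h.1 i (by omega), ?_⟩
  rw [h.2]
  unfold Gd
  rw [Finset.mul_sum]
  have hsub : range (d / 2 + 1) ⊆ range ((d + 1) / 2 + 1) := by
    intro x hx
    rw [Finset.mem_range] at hx ⊢
    omega
  rw [← Finset.sum_subset hsub]
  · refine Finset.sum_congr rfl fun i hi => ?_
    rw [Finset.mem_range] at hi
    have : d + 1 - 2 * i = (d - 2 * i) + 1 := by omega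
    rw [this, pow_succ]
    ring
  · intro i _ hi
    rw [Finset.mem_range] at hi
    rw [h.1 i (by omega)]
    simp

theorem IsG.mul_X {d : ℕ} {f g : ℤ[X]} (h : IsG d f g) : IsG (d + 2) (X * f) (X * g) := by
  refine ⟨?_, ?_⟩
  · intro i hi
    obtain ⟨k, rfl⟩ : ∃ k, i = k + 1 := ⟨i - 1, by omega⟩
    rw [coeff_X_mul]
    exact h.1 k (by omega)
  · rw [h.2]
    unfold Gd
    have e : (d + 2) / 2 + 1 = (d / 2 + 1) + 1 := by omega
    rw [e]
    conv_rhs => rw [Finset.sum_range_succ']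
    rw [Finset.mul_sum]
    simp only [coeff_X_mul, mul_coeff_zero, coeff_X_zero, zero_mul, C_0, add_zero]
    refine Finset.sum_congr rfl fun i _ => ?_
    have : d + 2 - 2 * (i + 1) = d - 2 * i := by omega
    rw [this, pow_succ]
    ring

theorem sum_top (p : ℕ → ℤ[X]) (d j : ℕ) (h : j ≤ d + 1) :
    ∑ k ∈ Ico (d + 1 - j) (d + 1), p k = ∑ k ∈ range j, p (d - k) := by
  induction j with
  | zero => simp
  | succ j ih =>
    have e : d + 1 - (j + 1) = d - j := by omega
    rw [e, Finset.sum_eq_sum_Ico_succ_bot (by omega : d - j < d + 1), Finset.sum_range_succ]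
    have e2 : d - j + 1 = d + 1 - j := by omega
    rw [e2, ih (by omega)]
    ring

theorem sum_split (p : ℕ → ℤ[X]) (d j : ℕ) (h : 2 * j ≤ d + 1) :
    ∑ k ∈ Ico j (d + 1), p k = ∑ k ∈ Ico j (d + 1 - j), p k + ∑ k ∈ range j, p (d - k) := by
  rw [← sum_top p d j (by omega), Finset.sum_Ico_consecutive]
  · omega
  · omega

theorem sum_split' (p : ℕ → ℤ[X]) (d j : ℕ) (h : 2 * j ≤ d + 1) :
    ∑ k ∈ range (d + 1 - j), p k = ∑ k ∈ range j, p k + ∑ k ∈ Ico j (d + 1 - j), p k := by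
  rw [Finset.range_eq_Ico, Finset.range_eq_Ico, Finset.sum_Ico_consecutive]
  · omega
  · omega

/-- middle sums -/
theorem isG_mid (d : ℕ) (b : ℕ → ℤ[X]) (w : ℕ → ℕ) (hw : ∀ i, i ≤ d → w i = w (d - i))
    (h1 : ∀ i, 2 * i < d → IsG d (P d i + P d (d - i)) (b i))
    (h2 : ∀ i, 2 * i = d → IsG d (P d i) (b i)) (t j : ℕ) (hj : d / 2 + 1 ≤ j + t) :
    IsG d (∑ k ∈ Ico j (d + 1 - j), (w k : ℤ[X]) * P d k)
      (∑ i ∈ Ico j (d / 2 + 1), (w i : ℤ[X]) * b i) := by
  induction t generalizing j with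
  | zero =>
    rw [Finset.Ico_eq_empty (by omega), Finset.Ico_eq_empty (by omega)]
    simpa using IsG.zero d
  | succ t ih =>
    rcases lt_trichotomy (2 * j) d with hlt | heq | hgt
    · rw [Finset.sum_eq_sum_Ico_succ_bot (by omega : j < d / 2 + 1),
        Finset.sum_eq_sum_Ico_succ_bot (by omega : j < d + 1 - j)]
      obtain ⟨e, he⟩ : ∃ e, d + 1 - j = e + 1 ∧ e = d - j := ⟨d - j, by omega, rfl⟩
      have e3 : d + 1 - (j + 1) = e := by omega
      have ih' := ih (j + 1) (by omega)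
      rw [e3] at ih'
      rw [he.1, Finset.sum_Ico_succ_top (by omega : j + 1 ≤ e)]
      have hb := (h1 j hlt).smul (w j)
      have := hb.add ih'
      convert this using 1
      rw [he.2, ← hw j (by omega)]
      ring
    · have e1 : d + 1 - j = j + 1 := by omega
      have e2 : d / 2 + 1 = j + 1 := by omega
      rw [e1, e2]
      simp only [Nat.Ico_succ_singleton, Finset.sum_singleton]
      exact (h2 j heq).smul (w j)
    · rw [Finset.Ico_eq_empty (by omega), Finset.Ico_eq_empty (by omega)]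
      simpa using IsG.zero d

def Inv (d : ℕ) : Prop :=
  ∃ (V : Type) (_ : Fintype V) (G : SimpleGraph V) (b c : ℕ → ℤ[X]),
    cp G univ = b 0 ∧
    (∀ i, 1 ≤ i → 2 * i ≤ d → ∃ q, Ind G q ∧ b i = X * q) ∧
    c 0 = 2 * (X * b 0) ∧
    (∀ i, 1 ≤ i → 2 * i ≤ d → ∃ q, Ind G q ∧ c i = X * q) ∧
    (∀ i, 2 * i < d → IsG d (P d i + P d (d - i)) (b i)) ∧
    (∀ i, 2 * i = d → IsG d (P d i) (b i)) ∧
    (∀ i, 2 * i ≤ d → IsG (d + 1) (X * P d i + P d (d - i)) (c i))

theorem P_one_zero : P 1 0 = 1 := by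
  rw [P_succ]
  simp [P_zero]

theorem P_one_one : P 1 1 = X := by
  rw [P_succ]
  simp [P_zero]

theorem inv_one : Inv 1 := by
  refine ⟨Empty, inferInstance, ⊥, fun _ => 1, fun _ => 2 * (X * 1), ?_, ?_, rfl, ?_, ?_, ?_, ?_⟩
  · have : (univ : Finset Empty) = ∅ := by ext x; exact x.elim
    rw [this, cp_empty]
  · intro i h1 h2; omega
  · intro i h1 h2; omega
  · intro i h
    obtain rfl : i = 0 := by omega
    refine ⟨fun i hi => ?_, ?_⟩
    · obtain ⟨k, rfl⟩ : ∃ k, i = k + 1 := ⟨i - 1, by omega⟩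
      simp [coeff_one]
    · show P 1 0 + P 1 1 = _
      rw [P_one_zero, P_one_one]
      simp [Gd]
  · intro i h; omega
  · intro i h
    obtain rfl : i = 0 := by omega
    refine ⟨fun i hi => ?_, ?_⟩
    · obtain ⟨k, rfl⟩ : ∃ k, i = k + 1 := ⟨i - 1, by omega⟩
      have h2 : (2 : ℤ[X]) = C 2 := rfl
      rw [h2, coeff_C_mul, coeff_X_mul, coeff_one, if_neg (by omega), mul_zero]
    · have h2 : (2 : ℤ[X]) = C 2 := rfl
      have hr : range ((1 + 1) / 2 + 1) = {0, 1} := by decide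
      show X * P 1 0 + P 1 1 = _
      rw [P_one_zero, P_one_one]
      simp only [Gd, hr]
      rw [Finset.sum_pair (by decide), h2, coeff_C_mul, coeff_C_mul, mul_one, coeff_X_zero,
        coeff_X_one]
      simp only [mul_zero, C_0, zero_mul, zero_add, mul_one, pow_one, Nat.add_sub_cancel, C_ofNat]
      norm_num
      ring

end Pool.Agent.H53.BS
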