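import Pool.Agent.H53.BS.Step

/-! Barycentric subdivisions of simplicial posets. -/

namespace Pool.Agent.H53.BS

open Polynomial Finset

section poset

variable {α : Type*} [Fintype α] [PartialOrder α] [OrderBot α] (r : α → ℕ)
  (hr : ∀ a, Nonempty (Set.Iic a ≃o Finset (Fin (r a))))

include hr

theorem card_Iic (a : α) : Nat.card (Set.Iic a) = 2 ^ r a := by
  obtain ⟨e⟩ := hr a
  rw [Nat.card_congr e.toEquiv]
  simp

theorem card_iso (a : α) (e : Set.Iic a ≃o Finset (Fin (r a))) (b : α) (hb : b ≤ a) :
    (e ⟨b, hb⟩).card = r b := by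
  have h1 : Nat.card (Set.Iic b) = 2 ^ (e ⟨b, hb⟩).card := by
    have f : Set.Iic b ≃ {s : Finset (Fin (r a)) // s ∈ (e ⟨b, hb⟩).powerset} :=
      { toFun := fun x => ⟨e ⟨x.1, x.2.trans hb⟩, by
          rw [Finset.mem_powerset]
          exact e.monotone (show (⟨x.1, x.2.trans hb⟩ : Set.Iic a) ≤ ⟨b, hb⟩ from x.2)⟩
        invFun := fun s => ⟨(e.symm s.1).1, by
          have h := s.2
          rw [Finset.mem_powerset] at h
          have h2 := e.symm.monotone (show s.1 ≤ e ⟨b, hb⟩ from h)
          rw [OrderIso.symm_apply_apply] at h2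
          exact h2⟩
        left_inv := fun x => by
          apply Subtype.ext
          simp
        right_inv := fun s => by
          apply Subtype.ext
          simp }
    rw [Nat.card_congr f, Nat.card_eq_fintype_card, Fintype.card_coe, Finset.card_powerset]
  rw [card_Iic r hr b] at h1
  exact (Nat.pow_right_injective le_rfl h1).symm

theorem rank_lt {b a : α} (h : b < a) : r b < r a := by
  obtain ⟨e⟩ := hr a
  have h1 := card_iso r hr a e b h.le
  have h2 := card_iso r hr a e a le_rfl
  have h3 : (⟨b, h.le⟩ : Set.Iic a) < ⟨a, le_rfl⟩ := h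
  have h4 := Finset.card_lt_card (e.strictMono h3)
  rwa [h1, h2] at h4

theorem rank_mono {b a : α} (h : b ≤ a) : r b ≤ r a := by
  rcases h.eq_or_lt with rfl | h
  · exact le_rfl
  · exact (rank_lt r hr h).le

theorem rank_bot : r (⊥ : α) = 0 := by
  have h := card_Iic r hr (⊥ : α)
  have h2 : Nat.card (Set.Iic (⊥ : α)) = 1 := by
    rw [Nat.card_eq_one_iff_unique]
    refine ⟨⟨fun x y => Subtype.ext ?_⟩, ⟨⟨⊥, le_rfl⟩⟩⟩
    rw [le_bot_iff.1 x.2, le_bot_iff.1 y.2]
  rw [h2] at h
  by_contra h0
  have := Nat.one_lt_two_pow h0
  omega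

theorem rank_pos {a : α} (h : a ≠ ⊥) : 0 < r a :=
  lt_of_le_of_lt (Nat.zero_le _) (rank_lt r hr (bot_lt_iff_ne_bot.2 h))

open Classical in
theorem card_rank (a : α) (k : ℕ) :
    (univ.filter (fun b => b ≤ a ∧ r b = k)).card = (r a).choose k := by
  obtain ⟨e⟩ := hr a
  have h : (Finset.powersetCard k (univ : Finset (Fin (r a)))).card = (r a).choose k := by
    rw [Finset.card_powersetCard, Finset.card_univ, Fintype.card_fin]
  rw [← h]
  refine Finset.card_bij (fun b hb => e ⟨b, (Finset.mem_filter.1 hb).2.1⟩) ?_ ?_ ?_
  · intro b hb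
    rw [Finset.mem_powersetCard]
    refine ⟨Finset.subset_univ _, ?_⟩
    rw [card_iso r hr a e]
    exact (Finset.mem_filter.1 hb).2.2
  · intro b hb b' hb' h
    have := e.injective h
    exact congrArg Subtype.val this
  · intro s hs
    rw [Finset.mem_powersetCard] at hs
    refine ⟨(e.symm s).1, ?_, ?_⟩
    · rw [Finset.mem_filter]
      refine ⟨Finset.mem_univ _, (e.symm s).2, ?_⟩
      rw [← card_iso r hr a e _ (e.symm s).2]
      simpa using hs.2
    · simp

omit hr in
open Classical in
/-- faces of the barycentric subdivision: chains of non-bottom elements -/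
noncomputable def chains (α : Type*) [Fintype α] [PartialOrder α] [OrderBot α] :
    Finset (Finset α) :=
  univ.filter (fun C => ⊥ ∉ C ∧ IsChain (· ≤ ·) (C : Set α))

omit hr in
open Classical in
/-- top element of a chain (bottom for the empty chain) -/
noncomputable def tp (C : Finset α) : α := if h : ∃ a ∈ C, ∀ b ∈ C, b ≤ a then h.choose else ⊥

omit hr in
theorem tp_empty : tp (∅ : Finset α) = ⊥ := by
  unfold tp
  rw [dif_neg]
  rintro ⟨a, ha, -⟩
  simp at ha

omit hr in
theorem tp_eq {C : Finset α} {a : α} (ha : a ∈ C) (h : ∀ b ∈ C, b ≤ a) : tp C = a := by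
  unfold tp
  have hex : ∃ a ∈ C, ∀ b ∈ C, b ≤ a := ⟨a, ha, h⟩
  rw [dif_pos hex]
  exact le_antisymm (h _ hex.choose_spec.1) (hex.choose_spec.2 a ha)

omit hr in
theorem exists_top {C : Finset α} (hC : IsChain (· ≤ ·) (C : Set α)) (hne : C.Nonempty) :
    ∃ a ∈ C, ∀ b ∈ C, b ≤ a := by
  classical
  induction C using Finset.induction with
  | empty => exact absurd hne (by simp)
  | insert x C hx ih =>
    rcases C.eq_empty_or_nonempty with rfl | hne'
    · exact ⟨x, by simp, by simp⟩
    · obtain ⟨a, ha, hab⟩ := ih (hC.mono (by simp)) hne'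
      have hxa := hC.total (show x ∈ ((insert x C : Finset α) : Set α) by simp)
        (show a ∈ ((insert x C : Finset α) : Set α) by simp [ha])
      rcases hxa with h | h
      · refine ⟨a, by simp [ha], ?_⟩
        intro b hb
        rcases Finset.mem_insert.1 hb with rfl | hb
        · exact h
        · exact hab b hb
      · refine ⟨x, by simp, ?_⟩
        intro b hb
        rcases Finset.mem_insert.1 hb with rfl | hb
        · exact le_rfl
        · exact (hab b hb).trans h

omit hr in
theorem tp_mem {C : Finset α} (hC : IsChain (· ≤ ·) (C : Set α)) (hne : C.Nonempty) :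
    tp C ∈ C ∧ ∀ b ∈ C, b ≤ tp C := by
  obtain ⟨a, ha, hab⟩ := exists_top hC hne
  rw [tp_eq ha hab]
  exact ⟨ha, hab⟩

omit hr in
theorem le_tp {C : Finset α} (hC : IsChain (· ≤ ·) (C : Set α)) {b : α} (hb : b ∈ C) :
    b ≤ tp C := (tp_mem hC ⟨b, hb⟩).2 b hb

theorem card_chain_le {C : Finset α} (hC : C ∈ chains α) : C.card ≤ r (tp C) := by
  classical
  rw [chains, Finset.mem_filter] at hC
  obtain ⟨-, hbot, hch⟩ := hC
  have : C.card ≤ (Finset.Icc 1 (r (tp C))).card := by
    refine Finset.card_le_card_of_injOn r ?_ ?_
    · intro b hb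
      have hb' : b ∈ C := hb
      simp only [Finset.coe_Icc, Set.mem_Icc]
      exact ⟨rank_pos r hr (fun h => hbot (h ▸ hb')), rank_mono r hr (le_tp hch hb')⟩
    · intro b hb c hc hbc
      by_contra hne
      rcases hch.total hb hc with h | h
      · exact absurd hbc (rank_lt r hr (lt_of_le_of_ne h hne)).ne
      · exact absurd hbc.symm (rank_lt r hr (lt_of_le_of_ne h (Ne.symm hne))).ne
  simpa using this

open Classical in
theorem top_sum (a : α) :
    ∑ C ∈ (chains α).filter (fun C => tp C = a), (X : ℤ[X]) ^ C.card * (1 - X) ^ (r a - C.card)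
      = P (r a) (r a) := by
  induction hn : r a using Nat.strong_induction_on generalizing a with
  | _ n ih =>
    by_cases ha : a = ⊥
    · subst ha
      rw [rank_bot r hr] at hn
      subst hn
      have : (chains α).filter (fun C => tp C = ⊥) = {∅} := by
        ext C
        simp only [chains, Finset.mem_filter, Finset.mem_univ, true_and, Finset.mem_singleton]
        constructor
        · rintro ⟨⟨h1, h2⟩, h3⟩
          by_contra hne
          have := (tp_mem h2 (Finset.nonempty_iff_ne_empty.2 hne)).1
          rw [h3] at this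
          exact h1 this
        · rintro rfl
          exact ⟨⟨by simp, by simp⟩, tp_empty⟩
      rw [this]
      simp [P_zero]
    · obtain ⟨m, rfl⟩ : ∃ m, n = m + 1 := ⟨n - 1, by have := rank_pos r hr ha; omega⟩
      -- bijection with chains with top below a
      have hbij : ∑ C ∈ (chains α).filter (fun C => tp C = a),
          (X : ℤ[X]) ^ C.card * (1 - X) ^ (m + 1 - C.card)
          = ∑ C ∈ (chains α).filter (fun C => tp C < a),
            X * ((X : ℤ[X]) ^ C.card * (1 - X) ^ (m - C.card)) := by
        symm
        refine Finset.sum_bij (fun C _ => insert a C) ?_ ?_ ?_ ?_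
        · intro C hC
          simp only [chains, Finset.mem_filter, Finset.mem_univ, true_and] at hC ⊢
          obtain ⟨⟨h1, h2⟩, h3⟩ := hC
          have hlt : ∀ b ∈ C, b < a := fun b hb => lt_of_le_of_lt (le_tp h2 hb) h3
          refine ⟨⟨?_, ?_⟩, ?_⟩
          · intro h
            rcases Finset.mem_insert.1 h with h | h
            · exact ha h.symm
            · exact h1 h
          · rw [Finset.coe_insert]
            exact h2.insert fun b hb _ => Or.inr (hlt b hb).le
          · refine tp_eq (Finset.mem_insert_self a C) fun b hb => ?_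
            rcases Finset.mem_insert.1 hb with rfl | hb
            · exact le_rfl
            · exact (hlt b hb).le
        · intro C hC C' hC' h
          simp only [chains, Finset.mem_filter, Finset.mem_univ, true_and] at hC hC'
          have h1 : a ∉ C := fun h => absurd (lt_of_le_of_lt (le_tp hC.1.2 h) hC.2) (lt_irrefl _)
          have h2 : a ∉ C' := fun h => absurd (lt_of_le_of_lt (le_tp hC'.1.2 h) hC'.2) (lt_irrefl _)
          rw [← Finset.erase_insert h1, ← Finset.erase_insert h2, h]
        · intro C hC
          simp only [chains, Finset.mem_filter, Finset.mem_univ, true_and] at hC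
          obtain ⟨⟨h1, h2⟩, h3⟩ := hC
          have hne : C.Nonempty := by
            rw [Finset.nonempty_iff_ne_empty]
            rintro rfl
            rw [tp_empty] at h3
            exact ha h3.symm
          have haC : a ∈ C := by
            have := (tp_mem h2 hne).1
            rwa [h3] at this
          have hch : IsChain (· ≤ ·) ((C.erase a : Finset α) : Set α) :=
            h2.mono (by simp)
          refine ⟨C.erase a, ?_, Finset.insert_erase haC⟩
          simp only [chains, Finset.mem_filter, Finset.mem_univ, true_and]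
          refine ⟨⟨fun h => h1 (Finset.mem_of_mem_erase h), hch⟩, ?_⟩
          rcases (C.erase a).eq_empty_or_nonempty with he | hne'
          · rw [he, tp_empty]
            exact bot_lt_iff_ne_bot.2 ha
          · have hm := (tp_mem hch hne').1
            refine lt_of_le_of_ne ?_ (Finset.ne_of_mem_erase hm)
            have := le_tp h2 (Finset.mem_of_mem_erase hm)
            rwa [h3] at this
        · intro C hC
          simp only [chains, Finset.mem_filter, Finset.mem_univ, true_and] at hC
          have h1 : a ∉ C := fun h => absurd (lt_of_le_of_lt (le_tp hC.1.2 h) hC.2) (lt_irrefl _)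
          rw [Finset.card_insert_of_notMem h1, pow_succ, Nat.add_sub_add_right]
          ring
      rw [hbij]
      have hfib : ∑ C ∈ (chains α).filter (fun C => tp C < a),
            X * ((X : ℤ[X]) ^ C.card * (1 - X) ^ (m - C.card))
          = ∑ b ∈ univ.filter (fun b => b < a), ∑ C ∈ (chains α).filter (fun C => tp C = b),
            X * ((X : ℤ[X]) ^ C.card * (1 - X) ^ (m - C.card)) := by
        rw [← Finset.sum_fiberwise_of_maps_to (s := (chains α).filter (fun C => tp C < a))
          (t := univ.filter (fun b => b < a)) (g := tp)]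
        · refine Finset.sum_congr rfl fun b hb => Finset.sum_congr ?_ fun _ _ => rfl
          have hb' := (Finset.mem_filter.1 hb).2
          ext C
          simp only [Finset.mem_filter]
          constructor
          · rintro ⟨⟨h1, -⟩, h3⟩
            exact ⟨h1, h3⟩
          · rintro ⟨h1, h3⟩
            exact ⟨⟨h1, h3 ▸ hb'⟩, h3⟩
        · intro C hC
          rw [Finset.mem_filter] at hC ⊢
          exact ⟨Finset.mem_univ _, hC.2⟩
      rw [hfib]
      have hin : ∀ b ∈ univ.filter (fun b => b < a),
          ∑ C ∈ (chains α).filter (fun C => tp C = b),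
            X * ((X : ℤ[X]) ^ C.card * (1 - X) ^ (m - C.card))
          = X * ((1 - X) ^ (m - r b) * P (r b) (r b)) := by
        intro b hb
        have hb' := (Finset.mem_filter.1 hb).2
        have hlt : r b < m + 1 := hn ▸ rank_lt r hr hb'
        rw [← ih (r b) hlt b rfl, Finset.mul_sum, Finset.mul_sum]
        refine Finset.sum_congr rfl fun C hC => ?_
        rw [Finset.mem_filter] at hC
        have hc := card_chain_le r hr hC.1
        rw [hC.2] at hc
        have : m - C.card = (m - r b) + (r b - C.card) := by omega
        rw [this, pow_add]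
        ring
      rw [Finset.sum_congr rfl hin, P_diag_rec, Finset.mul_sum]
      rw [← Finset.sum_fiberwise_of_maps_to (s := univ.filter (fun b => b < a))
        (t := range (m + 1)) (g := r)]
      · refine Finset.sum_congr rfl fun k hk => ?_
        have hk' := Finset.mem_range.1 hk
        have h1 : ∀ b ∈ (univ.filter (fun b => b < a)).filter (fun b => r b = k),
            X * ((1 - X) ^ (m - r b) * P (r b) (r b)) = X * ((1 - X) ^ (m - k) * P k k) := by
          intro b hb
          rw [(Finset.mem_filter.1 hb).2]
        rw [Finset.sum_congr rfl h1, Finset.sum_const]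
        have h2 : (univ.filter (fun b => b < a)).filter (fun b => r b = k)
            = univ.filter (fun b => b ≤ a ∧ r b = k) := by
          ext b
          simp only [Finset.mem_filter, Finset.mem_univ, true_and]
          constructor
          · rintro ⟨h1, h2⟩
            exact ⟨h1.le, h2⟩
          · rintro ⟨h1, h2⟩
            refine ⟨lt_of_le_of_ne h1 ?_, h2⟩
            rintro rfl
            omega
        rw [h2, card_rank r hr a k, hn, nsmul_eq_mul]
        ring
      · intro b hb
        have hb' := (Finset.mem_filter.1 hb).2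
        rw [Finset.mem_range, ← hn]
        exact rank_lt r hr hb'

theorem sd_sum (d : ℕ) (hd : ∀ a, r a ≤ d) :
    ∑ C ∈ chains α, (X : ℤ[X]) ^ C.card * (1 - X) ^ (d - C.card)
      = L d (∑ a, X ^ r a * (1 - X) ^ (d - r a)) := by
  classical
  rw [L_sum, ← Finset.sum_fiberwise_of_maps_to (s := chains α) (t := univ) (g := tp)]
  · refine Finset.sum_congr rfl fun a _ => ?_
    rw [L_key d (d - r a) (r a) (by have := hd a; omega)]
    have e : d - (d - r a) = r a := by have := hd a; omega
    rw [e, ← top_sum r hr a, Finset.mul_sum]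
    refine Finset.sum_congr rfl fun C hC => ?_
    rw [Finset.mem_filter] at hC
    have hc := card_chain_le r hr hC.1
    rw [hC.2] at hc
    have := hd a
    have e2 : d - C.card = (d - r a) + (r a - C.card) := by omega
    rw [e2, pow_add]
    ring
  · intro C _
    exact Finset.mem_univ _

open Classical in
theorem main_poset (d : ℕ) (hd : ∀ a, r a ≤ d) (h : ℕ → ℕ)
    (hh : ∑ a, (X : ℤ[X]) ^ r a * (1 - X) ^ (d - r a)
      = ∑ j ∈ range (d + 1), (h j : ℤ[X]) * X ^ j)
    (hs : ∀ j, j ≤ d → h j = h (d - j)) :
    ∃ (V : Type) (_ : Fintype V) (G : SimpleGraph V),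
      (∀ T : Finset V, G.IsClique (T : Set V) → 2 * T.card ≤ d) ∧
      ∑ C ∈ chains α, (X : ℤ[X]) ^ C.card * (1 - X) ^ (d - C.card)
        = ∑ T ∈ univ.filter (fun T : Finset V => G.IsClique (T : Set V)),
            X ^ T.card * (1 + X) ^ (d - 2 * T.card) := by
  have h0 : h 0 = 1 := by
    have h1 := congrArg (Polynomial.eval 0) hh
    simp only [eval_finset_sum, eval_mul, eval_pow, eval_X, eval_sub, eval_one, eval_natCast,
      sub_zero, one_pow, mul_one] at h1
    rw [Finset.sum_range_succ'] at h1
    simp only [pow_succ, mul_zero, Finset.sum_const_zero, zero_add, pow_zero, mul_one] at h1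
    rw [Finset.sum_eq_single (⊥ : α)] at h1
    · rw [rank_bot r hr, pow_zero] at h1
      exact_mod_cast h1.symm
    · intro b _ hb
      rw [zero_pow (rank_pos r hr hb).ne']
    · intro h; exact absurd (Finset.mem_univ _) h
  obtain ⟨V, _, G, hG⟩ := main_alg d h h0 hs
  have hcl : ∀ T : Finset V, G.IsClique (T : Set V) → 2 * T.card ≤ d := by
    intro T hT
    by_contra hlt
    have hc := hG.1 T.card (by omega)
    have h1 : (cp G univ).coeff T.card
        = ∑ S ∈ (univ : Finset V).powerset, if G.IsClique (S : Set V) ∧ S.card = T.card then (1 : ℤ) else 0 := by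
      unfold cp
      rw [finset_sum_coeff]
      refine Finset.sum_congr rfl fun S _ => ?_
      by_cases h1 : G.IsClique (S : Set V)
      · by_cases h2 : S.card = T.card
        · simp [h1, h2]
        · have h2' : T.card ≠ S.card := fun h => h2 h.symm
          simp [h1, h2, coeff_X_pow, h2']
      · simp [h1]
    have h2 : (1 : ℤ) ≤ ∑ S ∈ (univ : Finset V).powerset,
        if G.IsClique (S : Set V) ∧ S.card = T.card then (1 : ℤ) else 0 := by
      have h3 : T ∈ (univ : Finset V).powerset := by simp
      have := Finset.single_le_sum (f := fun S : Finset V =>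
        if G.IsClique (S : Set V) ∧ S.card = T.card then (1 : ℤ) else 0) (fun S _ => by
          split_ifs <;> norm_num) h3
      simpa [hT] using this
    rw [h1] at hc
    omega
  refine ⟨V, inferInstance, G, hcl, ?_⟩
  rw [sd_sum r hr d hd, hh]
  have h1 : L d (∑ j ∈ range (d + 1), (h j : ℤ[X]) * X ^ j)
      = ∑ j ∈ range (d + 1), (h j : ℤ[X]) * P d j := by
    rw [L_sum]
    refine Finset.sum_congr rfl fun j hj => ?_
    have hj' : j ≤ d := by have := Finset.mem_range.1 hj; omega
    have e : (h j : ℤ[X]) = C ((h j : ℕ) : ℤ) := by simp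
    rw [e, L_C_mul, L_X_pow d j hj']
  rw [h1, hG.2]
  unfold Gd
  have h2 : ∀ i, (cp G univ).coeff i
      = ∑ T ∈ univ.filter (fun T : Finset V => G.IsClique (T : Set V)),
          if T.card = i then (1 : ℤ) else 0 := by
    intro i
    unfold cp
    rw [Finset.powerset_univ, ← Finset.sum_filter, finset_sum_coeff]
    refine Finset.sum_congr rfl fun T _ => ?_
    rw [coeff_X_pow]
    by_cases h : i = T.card
    · simp [h]
    · have h' : ¬ T.card = i := fun e => h e.symm
      simp [h, h']
  have h3 : ∀ i ∈ range (d / 2 + 1), C ((cp G univ).coeff i) * (X ^ i * (1 + X) ^ (d - 2 * i))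
      = ∑ T ∈ univ.filter (fun T : Finset V => G.IsClique (T : Set V)),
          if T.card = i then (X : ℤ[X]) ^ T.card * (1 + X) ^ (d - 2 * T.card) else 0 := by
    intro i _
    rw [h2, map_sum, Finset.sum_mul]
    refine Finset.sum_congr rfl fun T _ => ?_
    by_cases h : T.card = i
    · simp [h]
    · simp [h]
  rw [Finset.sum_congr rfl h3, Finset.sum_comm]
  refine Finset.sum_congr rfl fun T hT => ?_
  have := hcl T (Finset.mem_filter.1 hT).2
  rw [Finset.sum_ite_eq, if_pos]
  rw [Finset.mem_range]
  omega

end poset

end Pool.Agent.H53.BS
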