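import Pool.Agent.H53.BS.Gamma

namespace Pool.Agent.H53.BS

open Polynomial Finset

theorem inv_step (d : ℕ) (hd : 1 ≤ d) (hI : Inv d) : Inv (d + 1) := by
  classical
  obtain ⟨V, _, G, b, c, hG, hb, hc0, hc, hB, hB', hC⟩ := hI
  choose! q hqI hqb using hb
  choose! r hrI hrc using hc
  let n := d / 2 + 1
  let q' : ℕ → ℤ[X] := fun i => if i = 0 then 0 else q i
  have hq'I : ∀ i < n, Ind G (q' i) := by
    intro i hi
    by_cases h0 : i = 0
    · simp only [q', h0, if_true]
      exact Ind.zero G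
    · simp only [q', h0, if_false]
      exact hqI i (by omega) (by omega)
  obtain ⟨W, _, H, hmono, hH, hHj⟩ := exists_cone G n q' hq'I
  let m : ℕ → ℤ[X] := fun j => ∑ i ∈ Ico j n, b i
  -- the part of `m` above `j ≥ 1`
  have hm1 : ∀ j, 1 ≤ j → m j = X * ∑ i ∈ Ico j n, q' i := by
    intro j hj
    simp only [m]
    rw [Finset.mul_sum]
    refine Finset.sum_congr rfl fun i hi => ?_
    rw [Finset.mem_Ico] at hi
    have : i ≠ 0 := by omega
    simp only [q', this, if_false]
    exact hqb i (by omega) (by omega)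
  have hm0 : m 0 = cp H univ := by
    rw [hH]
    have e1 : m 0 = b 0 + m 1 := by
      simp only [m]
      rw [Finset.sum_eq_sum_Ico_succ_bot (by omega : 0 < n)]
    have e2 : ∑ i ∈ range n, q' i = ∑ i ∈ Ico 1 n, q' i := by
      rw [Finset.range_eq_Ico, Finset.sum_eq_sum_Ico_succ_bot (by omega : 0 < n)]
      simp [q']
    rw [e1, hm1 1 le_rfl, hG, e2]
  have hbm : ∀ j, 1 ≤ j → j ≤ n → Ind H (b 0 + m j) := by
    intro j h1 h2
    rw [hm1 j h1, ← hG]
    exact hHj j h2
  have hmid : ∀ j, IsG d (∑ k ∈ Ico j (d + 1 - j), P d k) (m j) := by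
    intro j
    have := isG_mid d b (fun _ => 1) (fun _ _ => rfl) hB hB' (n - j) j (by omega)
    simpa using this
  have hCk : ∀ j, 2 * j ≤ d + 1 → IsG (d + 1) (∑ k ∈ range j, (X * P d k + P d (d - k)))
      (∑ k ∈ range j, c k) := by
    intro j hj
    refine IsG.sum _ _ _ fun k hk => hC k ?_
    rw [Finset.mem_range] at hk
    omega
  -- sums of `c`
  have hcs : ∀ j, 1 ≤ j → 2 * j ≤ d + 1 → ∑ k ∈ range j, c k
      = X * (2 * b 0 + ∑ k ∈ Ico 1 j, r k) := by
    intro j h1 h2
    rw [Finset.range_eq_Ico, Finset.sum_eq_sum_Ico_succ_bot (by omega : 0 < j), hc0]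
    have : ∑ k ∈ Ico (0 + 1) j, c k = X * ∑ k ∈ Ico 1 j, r k := by
      rw [Finset.mul_sum]
      refine Finset.sum_congr rfl fun k hk => ?_
      rw [Finset.mem_Ico] at hk
      exact hrc k (by omega) (by omega)
    rw [this]
    ring
  have hrs : ∀ j, 2 * j ≤ d + 1 → Ind H (∑ k ∈ Ico 1 j, r k) := by
    intro j h2
    refine Ind.sum _ _ fun k hk => hmono _ ?_
    rw [Finset.mem_Ico] at hk
    exact hrI k (by omega) (by omega)
  have hb0 : Ind H (b 0) := by
    rw [← hG]
    exact hmono _ (Ind.single G univ)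
  have hqs : ∀ j, 1 ≤ j → Ind H (∑ i ∈ Ico j n, q' i) := by
    intro j _
    refine Ind.sum _ _ fun k hk => hmono _ ?_
    rw [Finset.mem_Ico] at hk
    exact hq'I k (by omega)
  have htwo : ∀ p, Ind H p → Ind H (2 * p) := by
    intro p hp
    have := hp.nsmul 2
    simpa using this
  let b' : ℕ → ℤ[X] := fun j =>
    if 2 * j < d + 1 then 2 * ∑ k ∈ range j, c k + m j else ∑ k ∈ range j, c k
  let c' : ℕ → ℤ[X] := fun j => ∑ k ∈ range j, c k + 2 * (X * m j)
  have hb'0 : b' 0 = m 0 := by simp [b']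
  refine ⟨W, inferInstance, H, b', c', ?_, ?_, ?_, ?_, ?_, ?_, ?_⟩
  · rw [hb'0, hm0]
  · intro i h1 h2
    by_cases hlt : 2 * i < d + 1
    · refine ⟨2 * (2 * b 0 + ∑ k ∈ Ico 1 i, r k) + ∑ k ∈ Ico i n, q' k, ?_, ?_⟩
      · exact (htwo _ ((htwo _ hb0).add (hrs i h2))).add (hqs i h1)
      · simp only [b', hlt, if_true]
        rw [hcs i h1 h2, hm1 i h1]
        ring
    · refine ⟨2 * b 0 + ∑ k ∈ Ico 1 i, r k, (htwo _ hb0).add (hrs i h2), ?_⟩
      simp only [b', hlt, if_false]
      exact hcs i h1 h2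
  · simp only [c', hb'0]
    simp
  · intro i h1 h2
    refine ⟨2 * (b 0 + m i) + ∑ k ∈ Ico 1 i, r k, ?_, ?_⟩
    · exact (htwo _ (hbm i h1 (by omega))).add (hrs i h2)
    · simp only [c']
      rw [hcs i h1 h2]
      ring
  · intro i hi
    have e : d + 1 - i = (d + 1 - i) := rfl
    have hP : P (d + 1) i + P (d + 1) (d + 1 - i)
        = 2 * ∑ k ∈ range i, (X * P d k + P d (d - k))
          + (1 + X) * ∑ k ∈ Ico i (d + 1 - i), P d k := by
      rw [P_succ, P_succ, sum_split _ d i (by omega), sum_split' _ d i (by omega),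
        sum_top _ d i (by omega), Finset.sum_add_distrib, ← Finset.mul_sum]
      ring
    rw [hP]
    simp only [b', hi, if_true]
    have h1 := (hCk i (by omega)).smul 2
    have h2 := (hmid i).mul_one_add
    have := h1.add h2
    simpa using this
  · intro i hi
    have hP : P (d + 1) i = ∑ k ∈ range i, (X * P d k + P d (d - k)) := by
      rw [P_succ, sum_split _ d i (by omega), Finset.sum_add_distrib, ← Finset.mul_sum,
        Finset.Ico_eq_empty (by omega)]
      simp
    rw [hP]
    have hlt : ¬ (2 * i < d + 1) := by omega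
    simp only [b', hlt, if_false]
    exact hCk i (by omega)
  · intro i hi
    have hP : X * P (d + 1) i + P (d + 1) (d + 1 - i)
        = (1 + X) * ∑ k ∈ range i, (X * P d k + P d (d - k))
          + 2 * (X * ∑ k ∈ Ico i (d + 1 - i), P d k) := by
      rw [P_succ, P_succ, sum_split _ d i (by omega), sum_split' _ d i (by omega),
        sum_top _ d i (by omega), Finset.sum_add_distrib, ← Finset.mul_sum]
      ring
    rw [hP]
    have h1 := (hCk i hi).mul_one_add
    have h2 := ((hmid i).mul_X).smul 2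
    have := h1.add h2
    simpa [c'] using this

theorem inv_all (d : ℕ) (hd : 1 ≤ d) : Inv d := by
  induction d, hd using Nat.le_induction with
  | base => exact inv_one
  | succ d hd ih => exact inv_step d hd ih

/-- the main algebraic theorem -/
theorem main_alg (d : ℕ) (h : ℕ → ℕ) (h0 : h 0 = 1) (hs : ∀ i, i ≤ d → h i = h (d - i)) :
    ∃ (V : Type) (_ : Fintype V) (G : SimpleGraph V),
      IsG d (∑ j ∈ range (d + 1), (h j : ℤ[X]) * P d j) (cp G univ) := by
  classical
  rcases Nat.eq_zero_or_pos d with rfl | hd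
  · refine ⟨Empty, inferInstance, ⊥, ?_⟩
    have : (univ : Finset Empty) = ∅ := by ext x; exact x.elim
    rw [this, cp_empty]
    refine ⟨fun i hi => ?_, ?_⟩
    · obtain ⟨k, rfl⟩ : ∃ k, i = k + 1 := ⟨i - 1, by omega⟩
      simp [coeff_one]
    · simp [Gd, P_zero, h0]
  · obtain ⟨V, _, G, b, c, hG, hb, -, -, hB, hB', -⟩ := inv_all d hd
    choose! q hqI hqb using hb
    let q' : ℕ → ℤ[X] := fun i => if i = 0 then 0 else (h i : ℤ[X]) * q i
    have hq'I : ∀ i < d / 2 + 1, Ind G (q' i) := by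
      intro i hi
      by_cases hi0 : i = 0
      · simp only [q', hi0, if_true]
        exact Ind.zero G
      · simp only [q', hi0, if_false]
        exact (hqI i (by omega) (by omega)).nsmul (h i)
    obtain ⟨W, _, H, -, hH, -⟩ := exists_cone G (d / 2 + 1) q' hq'I
    refine ⟨W, inferInstance, H, ?_⟩
    have h1 := isG_mid d b h hs hB hB' (d / 2 + 1) 0 (by omega)
    rw [Nat.sub_zero, ← Finset.range_eq_Ico] at h1
    convert h1 using 1
    rw [hH, Finset.range_eq_Ico, Finset.sum_eq_sum_Ico_succ_bot (by omega : 0 < d / 2 + 1),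
      Finset.sum_eq_sum_Ico_succ_bot (by omega : 0 < d / 2 + 1), h0, hG, mul_add, Finset.mul_sum]
    simp only [q', if_true, mul_zero, zero_add, Nat.cast_one, one_mul]
    congr 1
    refine Finset.sum_congr rfl fun i hi => ?_
    rw [Finset.mem_Ico] at hi
    have : i ≠ 0 := by omega
    simp only [this, if_false]
    rw [hqb i (by omega) (by omega)]
    ring

end Pool.Agent.H53.BS
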